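import Pool.Agent.Helper50.BL.Stmts
import Pool.Agent.Helper50.BL.Base

/-! # Without bad events the increments are small -/

namespace Pool.Agent.Helper50.BL

open Finset
open scoped Classical

theorem lev_fcost_nn {J ι : Type} {H : ι → ℝ} (hH : ∀ a, 0 ≤ H a) {κ : ℝ} (hκ : 0 ≤ κ)
    (p : FPol ι J) : 0 ≤ fcost H κ p := by
  rcases p with (a | a) | (p | p)
  · exact hH a
  · exact hH a
  · exact cst_nn hκ p.2
  · exact cst_nn hκ p.2

theorem lev_num {D H γ : ℝ} (hD : 0 ≤ D) (hH : 0 ≤ H) (hγ' : γ ≤ 1 / 10 ^ 6) :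
    Real.sqrt (18 * D * (H + γ * D)) ≤ D / 100 + 900 * H := by
  rw [Real.sqrt_le_iff]
  refine ⟨by positivity, ?_⟩
  have h1 : γ * D ^ 2 ≤ 1 / 10 ^ 6 * D ^ 2 := mul_le_mul_of_nonneg_right hγ' (sq_nonneg D)
  have h2 : 0 ≤ D ^ 2 := sq_nonneg D
  have h3 : 0 ≤ H ^ 2 := sq_nonneg H
  nlinarith [h1, h2, h3, mul_nonneg hD hH]

theorem lev_mem {V : Type} [Fintype V] {w w' : V → ℤ} {x : V} :
    x ∈ Dst w w' ↔ (w x ≠ 0 ∨ w' x ≠ 0) ∧ |w x - 2 * w' x| ≤ 3 := by
  simp [Dst]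

/-- no bad event: the increments are small -/
theorem st_LEV (h1 : ST_COMP) (h2 : ST_FLOC) : ST_LEV := by
  intro V J _ _ _ _ N S Z Ag κ γ y ξ hκ hγ hγ' hNB Q
  obtain ⟨C, hC⟩ := h1 (FPol N.ι J) (FRel N.φ S Z)
    (fun a b hab hd => hab hd.symm) Q
  obtain ⟨-, hloc⟩ := h2 V J N.ι N.φ S Z Ag
  obtain ⟨hs1, hs2, hsep⟩ := hloc Q C hC
  set f1 : Finset (FPol N.ι J) → V → ℤ := fw1 N.φ S Z Ag with hf1
  set f2 : Finset (FPol N.ι J) → V → ℤ := fw2 N.φ S Z Ag with hf2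
  -- values agree
  have hag : ∀ A ∈ C, ∀ x, (f1 A x ≠ 0 ∨ f2 A x ≠ 0) → f1 Q x = f1 A x ∧ f2 Q x = f2 A x := by
    intro A hA x hx
    have hz : ∀ B ∈ C, B ≠ A → f1 B x = 0 ∧ f2 B x = 0 := by
      intro B hB hne
      rcases hsep B hB A hA hne x with h | h
      · exact h
      · exfalso
        rcases hx with hx | hx
        · exact hx h.1
        · exact hx h.2
    constructor
    · rw [hs1 x]
      exact Finset.sum_eq_single A (fun B hB hne => (hz B hB hne).1) (fun h => absurd hA h)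
    · rw [hs2 x]
      exact Finset.sum_eq_single A (fun B hB hne => (hz B hB hne).2) (fun h => absurd hA h)
  -- some component is not zero
  have hex : ∀ x, (f1 Q x ≠ 0 ∨ f2 Q x ≠ 0) → ∃ A ∈ C, (f1 A x ≠ 0 ∨ f2 A x ≠ 0) := by
    intro x hx
    by_contra hc
    push Not at hc
    rcases hx with hx | hx
    · apply hx
      rw [hs1 x]
      exact Finset.sum_eq_zero fun A hA => (hc A hA).1
    · apply hx
      rw [hs2 x]
      exact Finset.sum_eq_zero fun A hA => (hc A hA).2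
  have hDst : Dst (f1 Q) (f2 Q) = C.biUnion (fun A => Dst (f1 A) (f2 A)) := by
    ext x
    rw [Finset.mem_biUnion]
    constructor
    · intro hx
      rw [lev_mem] at hx
      obtain ⟨A, hA, hne⟩ := hex x hx.1
      obtain ⟨e1, e2⟩ := hag A hA x hne
      refine ⟨A, hA, ?_⟩
      rw [lev_mem, ← e1, ← e2]
      exact hx
    · rintro ⟨A, hA, hx⟩
      rw [lev_mem] at hx
      obtain ⟨e1, e2⟩ := hag A hA x hx.1
      rw [lev_mem, e1, e2]
      exact hx
  have hdis : Set.PairwiseDisjoint (C : Set (Finset (FPol N.ι J)))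
      (fun A => Dst (f1 A) (f2 A)) := by
    intro A hA B hB hne
    rw [Function.onFun, Finset.disjoint_left]
    intro x hxA hxB
    rw [lev_mem] at hxA hxB
    rcases hsep A hA B hB hne x with h | h
    · rcases hxA.1 with h' | h'
      · exact h' h.1
      · exact h' h.2
    · rcases hxB.1 with h' | h'
      · exact h' h.1
      · exact h' h.2
  have hcard : (#(Dst (f1 Q) (f2 Q)) : ℝ) = ∑ A ∈ C, (#(Dst (f1 A) (f2 A)) : ℝ) := by
    rw [hDst, Finset.card_biUnion hdis]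
    push_cast
    rfl
  have hsum : ∑ x ∈ Dst (f1 Q) (f2 Q), inc (y x) (ξ x) (f1 Q x) (f2 Q x)
      = ∑ A ∈ C, ∑ x ∈ Dst (f1 A) (f2 A), inc (y x) (ξ x) (f1 A x) (f2 A x) := by
    rw [hDst, Finset.sum_biUnion hdis]
    refine Finset.sum_congr rfl fun A hA => Finset.sum_congr rfl fun x hx => ?_
    rw [lev_mem] at hx
    obtain ⟨e1, e2⟩ := hag A hA x hx.1
    rw [e1, e2]
  have hcost : ∑ p ∈ Q, fcost N.H κ p = ∑ A ∈ C, ∑ p ∈ A, fcost N.H κ p := hC.sum _
  rw [hsum, hcard, hcost, Finset.sum_div, Finset.mul_sum, ← Finset.sum_add_distrib]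
  refine Finset.sum_le_sum fun A hA => ?_
  have hb := hNB A (hC.1 A hA)
  rw [BadE, not_lt] at hb
  refine hb.trans (lev_num (Nat.cast_nonneg _) ?_ hγ')
  exact Finset.sum_nonneg fun p _ => lev_fcost_nn N.nn hκ p

end Pool.Agent.Helper50.BL
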